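import Pool.Agent.Helper7.KT.St

/-!
# Project KT (MP_5176ab_co), module KMS: cliques which meet a set
-/

set_option autoImplicit false

namespace Pool.Agent.Helper60.KT

open Finset SimpleGraph Filter Topology
open EX Pool.Agent.Helper7.KT

open scoped Classical

theorem hKMS : StKMS := by
  intro V _ Γ j N
  unfold km kc nb
  have hsub : ((powersetCard (j + 1) (univ : Finset V)).filter fun T : Finset V =>
      Γ.IsClique (T : Set V) ∧ ∃ v ∈ T, v ∈ N) ⊆
      N.biUnion fun v => ((powersetCard j (univ.filter (Γ.Adj v))).filter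
        fun T : Finset V => Γ.IsClique (T : Set V)).image (insert v) := by
    intro T hT
    obtain ⟨hT1, hT2, v, hv, hvN⟩ := mem_filter.1 hT
    obtain ⟨hT3, hT4⟩ := mem_powersetCard.1 hT1
    refine mem_biUnion.2 ⟨v, hvN, mem_image.2 ⟨T.erase v, mem_filter.2 ⟨mem_powersetCard.2
      ⟨?_, by rw [card_erase_of_mem hv]; omega⟩, ?_⟩, insert_erase hv⟩⟩
    · intro x hx
      obtain ⟨hx1, hx2⟩ := mem_erase.1 hx
      exact mem_filter.2 ⟨mem_univ _, hT2 (mem_coe.2 hv) (mem_coe.2 hx2) (Ne.symm hx1)⟩
    · exact hT2.subset (by exact_mod_cast erase_subset v T)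
  exact (card_le_card hsub).trans (card_biUnion_le.trans (sum_le_sum fun v _ => card_image_le))

end Pool.Agent.Helper60.KT
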